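import Pool.Agent.Helper11.Q3.Stmts
import Mathlib.NumberTheory.LegendreSymbol.JacobiSymbol
import Mathlib.NumberTheory.DirichletCharacter.Basic

/-!
Block J4 (MP_a499ba_nt): the Jacobi symbol modulo an odd squarefree number larger than one is a primitive real character.
-/

set_option autoImplicit false

namespace Pool.Agent.Helper54.DR

open scoped NumberTheorySymbols

/-- the Jacobi symbol as a character with integer values -/
def jc (q : ℕ) [NeZero q] (hq1 : 1 < q) : MulChar (ZMod q) ℤ where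
  toFun a := jacobiSym (a.val : ℤ) q
  map_one' := by
    have : Fact (1 < q) := ⟨hq1⟩
    rw [ZMod.val_one]
    exact jacobiSym.one_left q
  map_mul' a b := by
    rw [ZMod.val_mul, ← jacobiSym.mul_left]
    apply jacobiSym.mod_left'
    push_cast
    rw [Int.emod_emod_of_dvd _ dvd_rfl]
  map_nonunit' a ha := by
    have h0 : ¬ Nat.Coprime a.val q := by
      intro h
      apply ha
      have := (ZMod.isUnit_iff_coprime a.val q).2 h
      rwa [ZMod.natCast_zmod_val] at this
    rw [jacobiSym.eq_zero_iff]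
    exact ⟨NeZero.ne q, by rw [Int.gcd_natCast_natCast]; exact h0⟩

theorem jc_nat (q : ℕ) [NeZero q] (hq1 : 1 < q) (n : ℕ) : jc q hq1 (n : ZMod q) = jacobiSym (n : ℤ) q := by
  change jacobiSym (((n : ZMod q).val : ℕ) : ℤ) q = _
  rw [ZMod.val_natCast]
  apply jacobiSym.mod_left'
  push_cast
  rw [Int.emod_emod_of_dvd _ dvd_rfl]

/-- a number with symbol minus one that is one modulo the cofactor of a prime of the modulus -/
theorem ex_neg {p s : ℕ} (hp : p.Prime) (hodd : Odd (p * s)) (hs : Squarefree (p * s)) :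
    ∃ v : ℕ, jacobiSym (v : ℤ) (p * s) = -1 ∧ v ≡ 1 [MOD s] := by
  have hP2 : p ≠ 2 := by
    intro h2
    rw [h2] at hodd
    exact (Nat.not_odd_iff_even.2 (even_two_mul s)) hodd
  have : Fact p.Prime := ⟨hp⟩
  have hcop : Nat.Coprime p s := Nat.coprime_of_squarefree_mul hs
  obtain ⟨y, hy⟩ := FiniteField.exists_nonsquare (F := ZMod p) (by
    rw [ZMod.ringChar_zmod_n]; exact hP2)
  obtain ⟨v, hv1, hv2⟩ := Nat.chineseRemainder hcop y.val 1
  refine ⟨v, ?_, hv2⟩
  have hs0 : s ≠ 0 := by
    rintro rfl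
    simp at hodd
  rw [jacobiSym.mul_right' _ hp.ne_zero hs0]
  have e1 : jacobiSym (v : ℤ) p = jacobiSym (y.val : ℤ) p := by
    apply jacobiSym.mod_left'
    exact_mod_cast hv1
  have e2 : jacobiSym (v : ℤ) s = jacobiSym (1 : ℤ) s := by
    apply jacobiSym.mod_left'
    have : v % s = 1 % s := hv2
    exact_mod_cast this
  rw [e1, e2, jacobiSym.one_left, mul_one, ZMod.nonsquare_iff_jacobiSym_eq_neg_one]
  simpa using hy

theorem unit_of_neg {q v : ℕ} [NeZero q] (h : jacobiSym (v : ℤ) q = -1) : Nat.Coprime v q := by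
  by_contra hn
  have : jacobiSym (v : ℤ) q = 0 := by
    rw [jacobiSym.eq_zero_iff, Int.gcd_natCast_natCast]
    exact ⟨NeZero.ne q, hn⟩
  rw [h] at this
  norm_num at this

theorem j4 : Pool.Agent.Helper11.Q3.StmtJ4 := by
  intro q hodd hsf hq1
  have hN : NeZero q := ⟨by omega⟩
  let χ : DirichletCharacter ℂ q := (jc q hq1).ringHomComp (Int.castRingHom ℂ)
  have hval : ∀ n : ℕ, χ n = (jacobiSym n q : ℂ) := by
    intro n
    have h1 : χ (n : ZMod q) = ((jc q hq1 (n : ZMod q) : ℤ) : ℂ) := rfl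
    rw [h1, jc_nat]
  have hsq : χ ^ 2 = 1 := by
    ext u
    have hu : Nat.Coprime (u : ZMod q).val q := ZMod.val_coe_unit_coprime u
    have h1 : χ (u : ZMod q) = (jacobiSym ((u : ZMod q).val : ℤ) q : ℂ) := rfl
    rw [MulChar.pow_apply_coe, MulChar.one_apply_coe, h1]
    rcases jacobiSym.eq_one_or_neg_one (a := ((u : ZMod q).val : ℤ)) (b := q)
      (by rw [Int.gcd_natCast_natCast]; exact hu) with h | h <;> rw [h] <;> norm_num
  have hprim : χ.IsPrimitive := by
    rw [DirichletCharacter.isPrimitive_def]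
    by_contra hne
    obtain ⟨hd, χ₀, h0⟩ := DirichletCharacter.factorsThrough_conductor χ
    obtain ⟨f, hf⟩ : ∃ f, f = χ.conductor := ⟨_, rfl⟩
    obtain ⟨e, he⟩ := hd
    rw [← hf] at he
    have he1 : e ≠ 1 := by
      rintro rfl
      rw [mul_one] at he
      exact hne (hf ▸ he.symm)
    obtain ⟨p, hp, e', he'⟩ := Nat.exists_prime_and_dvd he1
    have hqe : q = p * (f * e') := by
      calc q = f * e := he
        _ = p * (f * e') := by rw [he']; ring
    obtain ⟨v, hv1, hv2⟩ := ex_neg hp (s := f * e') (by rw [← hqe]; exact hodd)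
      (by rw [← hqe]; exact hsf)
    rw [← hqe] at hv1
    have hc := unit_of_neg hv1
    have hv3 : χ (v : ZMod q) = -1 := by
      rw [hval, hv1]
      norm_num
    have hv4 : (v : ZMod χ.conductor) = 1 := by
      have : v ≡ 1 [MOD χ.conductor] := hf ▸ hv2.of_mul_right _
      have := (ZMod.natCast_eq_natCast_iff _ _ _).2 this
      simpa using this
    have hv5 : χ (v : ZMod q) = χ₀ (v : ZMod χ.conductor) := by
      have h5 := DirichletCharacter.changeLevel_eq_cast_of_dvd χ₀ (DirichletCharacter.conductor_dvd_level χ)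
        (ZMod.unitOfCoprime v hc)
      rw [ZMod.coe_unitOfCoprime, ← h0] at h5
      rw [h5, ZMod.cast_natCast (DirichletCharacter.conductor_dvd_level χ)]
    rw [hv3, hv4, map_one] at hv5
    norm_num at hv5
  have hne : χ ≠ 1 := by
    intro h
    rw [DirichletCharacter.isPrimitive_def, h, DirichletCharacter.conductor_one] at hprim
    omega
  refine ⟨hN, χ, ⟨hprim, hsq, hne, fun n => ?_⟩, hval⟩
  rw [hval]
  push_cast
  ring

end Pool.Agent.Helper54.DR
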